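import Mathlib
import Pool.Agent.R318.QL.Cv4

set_option autoImplicit false

/-!
# Lower bounds of Gaussian type for the distribution of `log L(1/2,χ)` over the real primitive
characters with `L(s,χ) > 0` on `(0,1)`
-/

namespace Pool.Agent.Results.MP_0016c7_nt.CentralGaussian

open ProbabilityTheory

/-- The pairs `(N, χ)`, `1 ≤ N ≤ X`, with `χ` a nontrivial primitive quadratic Dirichlet character
modulo `N`. -/
def Quadratic (X : ℕ) : Set (Σ N : ℕ, DirichletCharacter ℂ N) :=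
  {p | (p.1 ≠ 0 ∧ p.2.IsPrimitive ∧ p.2 ^ 2 = 1 ∧ p.2 ≠ 1) ∧ p.1 ≤ X}

/-- `L(s,χ)` is real and positive for `0 < s < 1`, and
`(log L(1/2,χ) - (1/2) log log X) / √(log log X)` lies in `U`. -/
def CentralIn (U : Set ℝ) (X : ℕ) (p : Σ N : ℕ, DirichletCharacter ℂ N) : Prop :=
  ∃ _ : NeZero p.1,
    (∀ s : ℝ, 0 < s → s < 1 → (DirichletCharacter.LFunction p.2 (s : ℂ)).im = 0 ∧
      0 < (DirichletCharacter.LFunction p.2 (s : ℂ)).re) ∧
    (Real.log (DirichletCharacter.LFunction p.2 ((1 / 2 : ℝ) : ℂ)).re -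
        1 / 2 * Real.log (Real.log X)) / Real.sqrt (Real.log (Real.log X)) ∈ U

/-- **Theorem.** Let `U` be an open set of real numbers and `γ(U)` its standard Gaussian measure.
For all large `X`, at least `(γ(U) - 0.136) #{χ}` of the real primitive characters `χ` of conductor
at most `X` satisfy: `L(s,χ) > 0` for all `0 < s < 1`, and
`(log L(1/2,χ) - (1/2) log log X) / √(log log X)` lies in `U`. -/
theorem result (U : Set ℝ) (hU : IsOpen U) :
    ∃ X0 : ℕ, ∀ X : ℕ, X0 ≤ X → (Quadratic X).Finite ∧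
      ((gaussianReal 0 1 U).toReal - 136 / 1000) * ((Quadratic X).ncard : ℝ) ≤
        ((Quadratic X ∩ {p | CentralIn U X p}).ncard : ℝ) := by
  obtain ⟨N, hN⟩ := Pool.Agent.R318.QL.mainD U hU
  refine ⟨N, fun X hX => ?_⟩
  obtain ⟨h1, h2⟩ := hN X hX
  have hset : Quadratic X = Pool.Agent.H306R2.RG.LnkC.RPC ∩ {p | p.1 ≤ X} := rfl
  rw [hset]
  refine ⟨h1, h2.trans ?_⟩
  have hsub : (Pool.Agent.H306R2.RG.LnkC.RPC ∩ {p | p.1 ≤ X} ∩
        {p | Pool.Agent.R318.QL.GoodG U X p}) ⊆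
      (Pool.Agent.H306R2.RG.LnkC.RPC ∩ {p | p.1 ≤ X}) ∩ {p | CentralIn U X p} := by
    rintro p ⟨hp1, hp2⟩
    obtain ⟨⟨hNz', hpos⟩, hNz, hp3⟩ := hp2
    exact ⟨hp1, hNz, hpos, hp3⟩
  exact_mod_cast Set.ncard_le_ncard hsub (h1.subset Set.inter_subset_left)

end Pool.Agent.Results.MP_0016c7_nt.CentralGaussian
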