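import Mathlib
import Pool.Agent.R318.QL.Cv3

set_option autoImplicit false

/-!
# For at least 86.4 percent of the real primitive characters, `L(s,χ)` is positive on `(0,1)` and
`log L(1/2,χ)` is given, up to `O(log log log X)`, by a short sum over primes
-/

namespace Pool.Agent.Results.MP_0016c7_nt.CentralPrimeSum

/-- The pairs `(N, χ)`, `1 ≤ N ≤ X`, with `χ` a nontrivial primitive quadratic Dirichlet character
modulo `N`. -/
def Quadratic (X : ℕ) : Set (Σ N : ℕ, DirichletCharacter ℂ N) :=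
  {p | (p.1 ≠ 0 ∧ p.2.IsPrimitive ∧ p.2 ^ 2 = 1 ∧ p.2 ≠ 1) ∧ p.1 ≤ X}

/-- The sum of `χ(q) / √q` over the primes `q ≤ exp (log X / log log X)`. -/
noncomputable def PrimeSum (X : ℕ) (p : Σ N : ℕ, DirichletCharacter ℂ N) : ℝ :=
  ∑ q ∈ (Finset.range (⌊Real.exp (Real.log X / Real.log (Real.log X))⌋₊ + 1)).filter Nat.Prime,
    (p.2 (q : ZMod p.1)).re / Real.sqrt q

/-- `L(s,χ)` is real and positive for `0 < s < 1`, and
`log L(1/2,χ) = (1/2) log log X + PrimeSum + O(log log log X)`. -/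
def Central (A : ℝ) (X : ℕ) (p : Σ N : ℕ, DirichletCharacter ℂ N) : Prop :=
  ∃ _ : NeZero p.1,
    (∀ s : ℝ, 0 < s → s < 1 → (DirichletCharacter.LFunction p.2 (s : ℂ)).im = 0 ∧
      0 < (DirichletCharacter.LFunction p.2 (s : ℂ)).re) ∧
    |Real.log (DirichletCharacter.LFunction p.2 ((1 / 2 : ℝ) : ℂ)).re -
        1 / 2 * Real.log (Real.log X) - PrimeSum X p| ≤
      A * Real.log (Real.log (Real.log X))

/-- **Theorem.** There is `A > 0` such that for all large `X`, at least 86.4 percent of the real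
primitive characters `χ` of conductor at most `X` satisfy: `L(s,χ) > 0` for all `0 < s < 1`, and
`| log L(1/2,χ) - (1/2) log log X - ∑_{q ≤ z} χ(q) / √q | ≤ A log log log X`, where `q` runs over
the primes up to `z = exp (log X / log log X)`. -/
theorem result :
    ∃ A : ℝ, 0 < A ∧ ∃ X0 : ℕ, ∀ X : ℕ, X0 ≤ X → (Quadratic X).Finite ∧
      (864 / 1000 : ℝ) * ((Quadratic X).ncard : ℝ) ≤
        ((Quadratic X ∩ {p | Central A X p}).ncard : ℝ) := by
  obtain ⟨A, hA, N, hN⟩ := Pool.Agent.R318.QL.mainC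
  refine ⟨A, hA, N, fun X hX => ?_⟩
  obtain ⟨h1, h2⟩ := hN X hX
  have hset : Quadratic X = Pool.Agent.H306R2.RG.LnkC.RPC ∩ {p | p.1 ≤ X} := rfl
  rw [hset]
  refine ⟨h1, h2.trans ?_⟩
  have hsub : (Pool.Agent.H306R2.RG.LnkC.RPC ∩ {p | p.1 ≤ X} ∩
        {p | Pool.Agent.R318.QL.GoodC A X p}) ⊆
      (Pool.Agent.H306R2.RG.LnkC.RPC ∩ {p | p.1 ≤ X}) ∩ {p | Central A X p} := by
    rintro p ⟨hp1, hp2⟩
    obtain ⟨⟨hNz', hpos⟩, hNz, hp3⟩ := hp2
    exact ⟨hp1, hNz, hpos, hp3⟩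
  exact_mod_cast Set.ncard_le_ncard hsub (h1.subset Set.inter_subset_left)

end Pool.Agent.Results.MP_0016c7_nt.CentralPrimeSum
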