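import Mathlib
import Pool.Agent.R318.QL.Asm

set_option autoImplicit false

/-!
# For at least 86.4 percent of the real primitive characters, `L(s,χ)` is positive on `(0,1)` and has
its expected size at all points of `[1/2, 1]`
-/

namespace Pool.Agent.Results.MP_0016c7_nt.TrueSize

/-- The pairs `(N, χ)`, `1 ≤ N ≤ X`, with `χ` a nontrivial primitive quadratic Dirichlet character
modulo `N`. -/
def Quadratic (X : ℕ) : Set (Σ N : ℕ, DirichletCharacter ℂ N) :=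
  {p | (p.1 ≠ 0 ∧ p.2.IsPrimitive ∧ p.2 ^ 2 = 1 ∧ p.2 ≠ 1) ∧ p.1 ≤ X}

/-- `L(s,χ)` is real and positive for `0 < s < 1`, and for all `1/2 ≤ s ≤ 1`, with
`u = s - 1/2 + 1 / log X`,
`c u ^ (-(1/2 - ε)) ≤ L(s,χ) ≤ C u ^ (-(1/2 + ε))`. -/
def Size (ε c C : ℝ) (X : ℕ) (p : Σ N : ℕ, DirichletCharacter ℂ N) : Prop :=
  ∃ _ : NeZero p.1,
    (∀ s : ℝ, 0 < s → s < 1 → (DirichletCharacter.LFunction p.2 (s : ℂ)).im = 0 ∧
      0 < (DirichletCharacter.LFunction p.2 (s : ℂ)).re) ∧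
    ∀ s : ℝ, 1 / 2 ≤ s → s ≤ 1 → (DirichletCharacter.LFunction p.2 (s : ℂ)).im = 0 ∧
      c * (s - 1 / 2 + 1 / Real.log X) ^ (-(1 / 2 - ε)) ≤
        (DirichletCharacter.LFunction p.2 (s : ℂ)).re ∧
      (DirichletCharacter.LFunction p.2 (s : ℂ)).re ≤
        C * (s - 1 / 2 + 1 / Real.log X) ^ (-(1 / 2 + ε))

/-- **Theorem.** For every `0 < ε ≤ 1/2` there are `c, C > 0` such that for all large `X`, at least
86.4 percent of the real primitive characters `χ` of conductor at most `X` satisfy: `L(s,χ) > 0` for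
all `0 < s < 1`, and for all `1/2 ≤ s ≤ 1` simultaneously, with `u = s - 1/2 + 1 / log X`,
`c u ^ (-(1/2 - ε)) ≤ L(s,χ) ≤ C u ^ (-(1/2 + ε))`. -/
theorem result (ε : ℝ) (hε : 0 < ε) (hε2 : ε ≤ 1 / 2) :
    ∃ c C : ℝ, 0 < c ∧ 0 < C ∧ ∃ X0 : ℕ, ∀ X : ℕ, X0 ≤ X → (Quadratic X).Finite ∧
      (864 / 1000 : ℝ) * ((Quadratic X).ncard : ℝ) ≤
        ((Quadratic X ∩ {p | Size ε c C X p}).ncard : ℝ) := by
  obtain ⟨c, C, hc, hC, N, hN⟩ := Pool.Agent.R318.QL.mainA ε hε hε2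
  refine ⟨c, C, hc, hC, N, fun X hX => ?_⟩
  obtain ⟨h1, h2⟩ := hN X hX
  have hset : Quadratic X = Pool.Agent.H306R2.RG.LnkC.RPC ∩ {p | p.1 ≤ X} := rfl
  rw [hset]
  refine ⟨h1, h2.trans ?_⟩
  have hsub : (Pool.Agent.H306R2.RG.LnkC.RPC ∩ {p | p.1 ≤ X} ∩
        {p | Pool.Agent.R318.QL.GoodA ε c C X p}) ⊆
      (Pool.Agent.H306R2.RG.LnkC.RPC ∩ {p | p.1 ≤ X}) ∩ {p | Size ε c C X p} := by
    rintro p ⟨hp1, hp2⟩
    obtain ⟨⟨hNz', hpos⟩, hNz, hp3⟩ := hp2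
    exact ⟨hp1, hNz, hpos, hp3⟩
  exact_mod_cast Set.ncard_le_ncard hsub (h1.subset Set.inter_subset_left)

end Pool.Agent.Results.MP_0016c7_nt.TrueSize
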