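import Mathlib
import Pool.Agent.R318.QL.Asm

set_option autoImplicit false

/-!
# For almost all real primitive characters, `L(s,χ)` has its expected size at all points of
`[1/2 + A / log X, 1]`
-/

namespace Pool.Agent.Results.MP_0016c7_nt.TrueSizeMost

/-- The pairs `(N, χ)`, `1 ≤ N ≤ X`, with `χ` a nontrivial primitive quadratic Dirichlet character
modulo `N`. -/
def Quadratic (X : ℕ) : Set (Σ N : ℕ, DirichletCharacter ℂ N) :=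
  {p | (p.1 ≠ 0 ∧ p.2.IsPrimitive ∧ p.2 ^ 2 = 1 ∧ p.2 ≠ 1) ∧ p.1 ≤ X}

/-- With `u = s - 1/2 + 1 / log X`: `L(s,χ)` is real and `|L(s,χ)| ≤ C u ^ (-(1/2 + ε))` for all
`1/2 ≤ s ≤ 1`, and `c u ^ (-(1/2 - ε)) ≤ L(s,χ)` for all `1/2 + A / log X ≤ s ≤ 1`. -/
def Size (ε c C A : ℝ) (X : ℕ) (p : Σ N : ℕ, DirichletCharacter ℂ N) : Prop :=
  ∃ _ : NeZero p.1, ∀ s : ℝ, 1 / 2 ≤ s → s ≤ 1 →
    (DirichletCharacter.LFunction p.2 (s : ℂ)).im = 0 ∧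
    |(DirichletCharacter.LFunction p.2 (s : ℂ)).re| ≤
      C * (s - 1 / 2 + 1 / Real.log X) ^ (-(1 / 2 + ε)) ∧
    (1 / 2 + A / Real.log X ≤ s → c * (s - 1 / 2 + 1 / Real.log X) ^ (-(1 / 2 - ε)) ≤
      (DirichletCharacter.LFunction p.2 (s : ℂ)).re)

/-- **Theorem.** For all `0 < δ ≤ 1` and `0 < ε ≤ 1/2` there are `c, C, A > 0` such that for all large
`X`, all real primitive characters `χ` of conductor at most `X`, with at most a proportion `δ` of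
exceptions, satisfy with `u = s - 1/2 + 1 / log X`: `|L(s,χ)| ≤ C u ^ (-(1/2 + ε))` for all
`1/2 ≤ s ≤ 1`, and `L(s,χ) ≥ c u ^ (-(1/2 - ε))` for all `1/2 + A / log X ≤ s ≤ 1`. -/
theorem result (δ ε : ℝ) (hδ : 0 < δ) (hδ1 : δ ≤ 1) (hε : 0 < ε) (hε2 : ε ≤ 1 / 2) :
    ∃ c C A : ℝ, 0 < c ∧ 0 < C ∧ 0 < A ∧ ∃ X0 : ℕ, ∀ X : ℕ, X0 ≤ X → (Quadratic X).Finite ∧
      (1 - δ) * ((Quadratic X).ncard : ℝ) ≤
        ((Quadratic X ∩ {p | Size ε c C A X p}).ncard : ℝ) := by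
  obtain ⟨c, C, A, hc, hC, hA, N, hN⟩ := Pool.Agent.R318.QL.mainB δ ε hδ hδ1 hε hε2
  refine ⟨c, C, A, hc, hC, hA, N, fun X hX => ?_⟩
  obtain ⟨h1, h2⟩ := hN X hX
  exact ⟨h1, h2⟩

end Pool.Agent.Results.MP_0016c7_nt.TrueSizeMost
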